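import Pool.Agent.W2helper2.AK.Tree

/-!
# Groups acting on trees with commensurable linear stabilizers and algebraic commensurations

`C` is any class of groups with the closure properties `ClosedE C` which contains the metabelian groups.
By the literature this holds for the class of the groups that satisfy the Farrell–Jones conjecture for
A-theory with coefficients and finite wreath products, and this class contains `GL_m(K)` for `K` algebraic
over `ℚ`.

`AlgebraicBy C H E` means: `E` embeds in some `GL_n(K)`, where `K` is a field of characteristic zero and
all groups `GL_m(K)` are in `C`, such that for each `g` in `H` there is a subgroup `M` of finite index in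
`E` with `g M g⁻¹ ≤ E`, and the matrix entries of `g x g⁻¹` are given by polynomials in the entries of the
matrices of `x` and `x⁻¹`, for all `x` in `M` (`AlgebraicOn`). The image of `E` in `GL_n(K)` is an
arbitrary subgroup. For instance `E` may be commensurable to the group of the integral points of any
linear algebraic group over `ℚ`, if `H` acts by algebraic automorphisms of the identity component; by
the superrigidity theorem of Margulis this is automatic for lattices of higher rank, and for
`ℤ ^ n ⋊ SL_n(ℤ)`, `n ≥ 3`. For finitely generated nilpotent groups `E` it is always true (Malcev).

**Theorem.** Let `N` be a normal subgroup of `G` with `G ⧸ N` in `C`. Let `G` act on a tree such that the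
stabilizers `N_x` are commensurable for adjacent vertices `x` and have no nontrivial finite normal
subgroups, and such that `G` acts algebraically on `N_o` for some vertex `o`. Then `G` is in `C`.

So with `N = G` the fundamental groups of the graphs of groups whose vertex and edge groups are
commensurable arithmetic groups without finite normal subgroups are in `C`, if the edge groups are
embedded by algebraic isogenies. For graphs of abelian groups see Gandini, Meinert and Rüping.

The main step is a representation theorem (`Pool.Agent.W2helper2.AK.exists_hom`): if `H` acts
algebraically on the subgroup `E` of `G` in this sense, then there is a representation of `H` of finite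
degree over `K` the kernel of which consists of elements that centralize subgroups of finite index of
`E`. Outline of its proof. We consider the germs of functions on `E` along the filter of the
subgroups of finite index, and the algebra `A` of germs generated by the matrix entries: the coordinate
ring of the identity component of the Zariski closure of `E`. The group `H` acts on `A` and on `𝔪 / 𝔪²`
for the ideal `𝔪` of the germs which vanish at the identity. The squaring map `x ↦ x²` induces an
endomorphism of `A` which commutes with `H` and is the multiplication by `2 ^ l` on `𝔪 ^ l / 𝔪 ^ (l + 1)`; so
an element of `H` which is trivial modulo `𝔪 ^ l` on `A`, `l ≥ 2`, is trivial modulo `𝔪 ^ (l + 1)`. If `g` is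
trivial modulo all powers of `𝔪`, then by Krull's intersection theorem `g` centralizes the elements in
an open neighbourhood of the identity in a subgroup of finite index, and so, by quasi-compactness, a
subgroup of finite index.

The same engine gives a theorem on isolated edge groups (`Pool.Agent.W2helper2.AK.isolated_alg`, not part
of this hand-in).
-/

set_option autoImplicit false

namespace Pool.Agent.Results.MP_2a547c_gt.AlgebraicEdgeGroups

open Pool.Agent.Y110.FJ (ClosedE)
open Pool.Agent.W2helper2.AK (AlgebraicBy)

/-- **Groups acting on trees with commensurable linear stabilizers.** -/
theorem result (C : ∀ (G : Type) [Group G], Prop) (hC : ClosedE C)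
    (hM : ∀ (G : Type) [Group G], derivedSeries G 2 = ⊥ → C G)
    {G V : Type} [Group G] [MulAction G V] (T : SimpleGraph V) (hT : T.IsTree)
    (hact : ∀ (g : G) (u v : V), T.Adj u v → T.Adj (g • u) (g • v))
    (N : Subgroup G) [N.Normal] (hQ : C (G ⧸ N))
    (hcomm : ∀ x y : V, T.Adj x y →
      (N ⊓ MulAction.stabilizer G x).relIndex (N ⊓ MulAction.stabilizer G y) ≠ 0)
    (hfin : ∀ (x : V) (F : Subgroup ↥(N ⊓ MulAction.stabilizer G x)), F.Normal → Finite F → F = ⊥)
    (o : V) (hal : AlgebraicBy C ⊤ (N ⊓ MulAction.stabilizer G o)) : C G :=
  Pool.Agent.W2helper2.AK.comm_alg hC hM hT hact N hQ hcomm hfin o hal

end Pool.Agent.Results.MP_2a547c_gt.AlgebraicEdgeGroups
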