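import Pool.Agent.W2helper25.AE.Cliq

/-!
# Extensions whose kernel is an Artin group of arbitrary rank

`C` is a class of groups with the closure properties of the class of the groups which satisfy the
A-theoretic Farrell-Jones conjecture with coefficients and finite wreath products, and which contains the
Coxeter groups of finite rank.

Let `M` be a Coxeter matrix on a set `S` of arbitrary cardinality (the entry `0` of a Coxeter matrix of
Mathlib stands for infinity) such that the Artin groups of all irreducible cliques of `M` are in `C`. An
irreducible clique is a finite subset `T` of `S` such that all labels of `T` are finite and such that `T`
is not the union of two nonempty disjoint subsets with labels `2` between them. Let `N` be a normal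
subgroup of a group `G`, which is isomorphic to the Artin group of `M`, and suppose that each element of
`G` acts on `N`, up to an inner automorphism of `N`, by a permutation of the generators (or a permutation
and the inversion of all generators) which preserves the labels. **If `G ⧸ N` is in `C`, then `G` is in
`C`.** More generally one can impose the relations `s ^ p s = 1` on the generators, with even exponents
which agree on generators with an odd label.

Here `S` may be infinite, and `G` may permute the generators with infinite orbits. So `C` contains all
semidirect products of the Artin group of `M` by a group in `C` which acts through label-preserving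
permutations. For example, the virtual Artin groups are such semidirect products: the kernel of the
homomorphism to the Coxeter group `W`, which maps all generators of the Artin group to `1`, is an Artin
group, whose generators are permuted by `W` like the roots (Bellingeri, Paris and Thiel).

Outline of the proof.

* By the realization criterion it is enough to realize the conjugation by an element `g` on a finite
  subset of `N` in a group in `C`. Only finitely many generators are involved, and `g` gives a partial
  isomorphism of the finite Coxeter matrix of these generators.
* *Clique-faithful extensions of partial automorphisms.* Let `M` be a finite Coxeter matrix with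
  colours, and `f` a partial isomorphism. Then there is a finite Coxeter matrix `M'` with colours which
  contains `M`, such that `f` extends to an automorphism of `M'` and such that each clique of `M'` (all
  labels finite) can be embedded in `M`. This is the theorem of Hrushovski, Herwig, Hodkinson and Otto
  for edge-coloured graphs. The proof follows Hubička, Konečný and Nešetřil. The parabolic subgroups of
  the Artin groups embed by the theorem of van der Lek.
* The Artin group of `M'` is in `C`, because its irreducible cliques are irreducible cliques of the
  given matrix, and Artin groups of finite rank reduce to irreducible cliques
  (`Pool.Agent.W2helper12.BW`). So is its extension by the automorphism, whose order is finite.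
-/

set_option autoImplicit false

namespace Pool.Agent.Results.MP_2a547c_gt.ArtinKernels

open Pool.Agent.Y110.FJ (ClosedE)
open Pool.Agent.K7.H87.FJ6 (Sh Adm pull)
open Pool.Agent.W2helper12.BW (IrrClique)

theorem result (C : ∀ (G : Type) [Group G], Prop) (hC : ClosedE C)
    (hW : ∀ (S : Type) [Finite S] (M : CoxeterMatrix S), C M.Group)
    (S : Type) (M : CoxeterMatrix S) (p : S → ℕ) (hp : Adm M p)
    (hcl : ∀ T : Set S, IrrClique M T →
      C (Sh (pull M (Subtype.val : T → S) Subtype.val_injective) (fun t : T => p t)))
    (G : Type) [Group G] (N : Subgroup G) [N.Normal] (e : Sh M p ≃* N)
    (hact : ∀ g : G, ∃ n ∈ N, ∃ (τ : Equiv.Perm S) (ε : ℤˣ),
      (∀ s t, M (τ s) (τ t) = M s t) ∧ (∀ s, p (τ s) = p s) ∧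
      ∀ s, (n * g) * (e (Sh.gen M p s) : G) * (n * g)⁻¹ = (e (Sh.gen M p (τ s)) : G) ^ (ε : ℤ))
    (hQ : C (G ⧸ N)) : C G :=
  Pool.Agent.W2helper25.AE.sh_kernel hC hW N hp hcl e hact hQ

end Pool.Agent.Results.MP_2a547c_gt.ArtinKernels
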