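import Pool.Agent.W2helper32.GQ.Fin

/-!
# Extensions whose kernel is a graph product of arbitrary groups

`C` is any class of groups with the closure properties `ClosedE C` which contains the groups `F ⋊ ℤ`
for all free groups `F`. All this is published for the class of the groups which satisfy the A-theoretic
Farrell-Jones conjecture with coefficients and finite wreath products.

Let `Λ` be a graph, finite or infinite, and `A v` a group for each vertex `v`. Let `N` be a normal
subgroup of `G` which is the graph product of the groups `A v`, that is the quotient of their free
product by the relations which say that `A v` and `A w` commute for adjacent `v`, `w`. Suppose that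
conjugation by each element of `G` maps each vertex group `A v` to an `N`-conjugate of a vertex group
`A w`, and that one of the following holds.

* The graph `Λ` is finite.
* There is a proper colouring of the vertices with finitely many colours such that for the elements `g`
  of a subgroup of finite index of `G`, one can choose `w` with the colour of `v`. For example, `Λ` is a
  tree or a bipartite graph on which `G` acts.

Suppose further that the groups `A v ⟨g⟩` are in `C` for all `v` and all `g` in `G` which normalize `A v`,
and that `G ⧸ N` is in `C`. Then `G` is in `C`.

So `C` is closed under extensions with kernel `N` if `Λ` is finite, the groups `A v ⋊ ℤ` are in `C`, and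
all automorphisms of `N` are products of automorphisms of vertex groups, partial conjugations and
symmetries of the graph. By a theorem of Genevois and Martin this holds for arbitrary vertex groups if
`Λ` is finite, connected, of girth at least five and has no vertices of degree one, for example for a
cycle of length at least five. The vertex groups may be arbitrary groups in `C` with this property, for
instance hyperbolic groups; the elements of `G` may act on them by automorphisms of infinite order.

Outline of the proof. Induction on the number of colours. Let `S` be the set of the vertices of one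
colour, and `P` the graph product of the other vertices. The kernel `M` of the retraction of `N` to `P`
is normal in `G`. It is the free product of the conjugates `p A_s p⁻¹`, where `s` runs through `S` and
`p` through representatives of the cosets of the subgroup of `P` which is generated by the vertex
groups adjacent to `s`; this is seen in a semidirect product of a free product of copies of the groups
`A_s` and `P`. By induction, `G ⧸ M` is in `C`: if an element of `G ⧸ M` normalizes the image of `A_v`,
then it acts on it like an element of `G` which normalizes `A_v`, because elements of `P` which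
normalize `A_v` act on it by inner automorphisms of `A_v`. The elements of `G` map the factors of `M` to
`M`-conjugates of factors, and the theorem on extensions by free products
(`Pool.Agent.R684.FP.main_all`) applies to `M`.
-/

set_option autoImplicit false

noncomputable section

namespace Pool.Agent.Results.MP_2a547c_gt.GraphProductKernels

open Pool.Agent.Y110.FJ (ClosedE)

variable {V : Type} (Λ : SimpleGraph V) (A : V → Type) [∀ v, Group (A v)]

/-- The commutators of the elements of `A v` and `A w` for adjacent vertices `v`, `w`, in the free
product of all vertex groups. -/
def relators : Set (Monoid.CoprodI A) :=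
  {r | ∃ (v w : V) (a : A v) (b : A w), Λ.Adj v w ∧
    r = Monoid.CoprodI.of a * Monoid.CoprodI.of b * (Monoid.CoprodI.of a)⁻¹ *
      (Monoid.CoprodI.of b)⁻¹}

/-- The normal subgroup generated by the relators. -/
def relations : Subgroup (Monoid.CoprodI A) := Subgroup.normalClosure (relators Λ A)

instance : (relations Λ A).Normal := Subgroup.normalClosure_normal

/-- The graph product of the groups `A v`: the quotient of their free product by the relations which
say that `A v` and `A w` commute for adjacent vertices `v`, `w`. -/
abbrev GraphProduct : Type := Monoid.CoprodI A ⧸ relations Λ A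

/-- The homomorphism from the group `A v` to the graph product. -/
def incl (v : V) : A v →* GraphProduct Λ A := (QuotientGroup.mk' _).comp Monoid.CoprodI.of

variable {Λ A} {G : Type} [Group G] {N : Subgroup G}

/-- The vertex group of `v` as a subgroup of `G`. -/
def vertexGroup (e : GraphProduct Λ A ≃* N) (v : V) : Subgroup G :=
  ((incl Λ A v).range).map (N.subtype.comp e.toMonoidHom)

/-- Conjugation by `g` maps the vertex group of `v` to an `N`-conjugate of the vertex group of `w`. -/
def Moves (e : GraphProduct Λ A ≃* N) (g : G) (v w : V) : Prop :=
  ∃ n ∈ N, ∀ z, z ∈ vertexGroup e v ↔ n * (g * z * g⁻¹) * n⁻¹ ∈ vertexGroup e w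

/-- The class `C` contains the groups `F ⋊ ℤ` for all free groups `F`. -/
def FreeByCyclic (C : ∀ (G : Type) [Group G], Prop) : Prop :=
  ∀ (X : Type) (α : MulAut (FreeGroup X)),
    C (FreeGroup X ⋊[zpowersHom (MulAut (FreeGroup X)) α] Multiplicative ℤ)

/-- The vertex set is finite, and each element of `G` maps each vertex group to an `N`-conjugate of a
vertex group. -/
def FinitelyPermuted (e : GraphProduct Λ A ≃* N) : Prop :=
  Finite V ∧ ∀ (g : G) (v : V), ∃ w, Moves e g v w

/-- There are a proper colouring of the vertices with finitely many colours and a subgroup `G₁` of
finite index in `G` whose elements map each vertex group to an `N`-conjugate of a vertex group of a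
vertex of the same colour. -/
def ColourPermuted (e : GraphProduct Λ A ≃* N) : Prop :=
  ∃ (k : ℕ) (c : V → Fin k) (G₁ : Subgroup G), G₁.FiniteIndex ∧
    (∀ v w, Λ.Adj v w → c v ≠ c w) ∧ ∀ g ∈ G₁, ∀ v, ∃ w, c w = c v ∧ Moves e g v w

/-- The groups `A v ⟨g⟩` are in `C` if `g` normalizes `A v`. -/
def CyclicExtensions (C : ∀ (G : Type) [Group G], Prop) (e : GraphProduct Λ A ≃* N) : Prop :=
  ∀ (v : V) (g : G), (∀ z, z ∈ vertexGroup e v ↔ g * z * g⁻¹ ∈ vertexGroup e v) →
    C ↥(vertexGroup e v ⊔ Subgroup.zpowers g)

/-- **Extensions whose kernel is a graph product.** -/
theorem result (C : ∀ (G : Type) [Group G], Prop) (hC : ClosedE C) (hF : FreeByCyclic C)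
    (V : Type) (Λ : SimpleGraph V) (A : V → Type) [∀ v, Group (A v)]
    (G : Type) [Group G] (N : Subgroup G) [N.Normal] (e : GraphProduct Λ A ≃* N)
    (hG : FinitelyPermuted e ∨ ColourPermuted e) (hA : CyclicExtensions C e)
    (hQ : C (G ⧸ N)) : C G := by
  have hr : (N.subtype.comp e.toMonoidHom).range = N := by
    rw [MonoidHom.range_comp, MonoidHom.range_eq_top.mpr e.surjective]
    exact (MonoidHom.range_eq_map N.subtype).symm.trans N.range_subtype
  have hn : (N.subtype.comp e.toMonoidHom).range.Normal := by
    rw [hr]
    infer_instance
  have hQ' : C (G ⧸ (N.subtype.comp e.toMonoidHom).range) :=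
    Pool.Agent.R941.FJ.C_equiv hC.base (QuotientGroup.quotientMulEquivOfEq hr) hQ
  have hj : Function.Injective (N.subtype.comp e.toMonoidHom) :=
    N.subtype_injective.comp e.injective
  have hM : ∀ (g : G) (v w : V), Moves e g v w → ∃ n ∈ (N.subtype.comp e.toMonoidHom).range,
      Pool.Agent.W2helper32.GQ.Mv (N.subtype.comp e.toMonoidHom) g n v w := by
    rintro g v w ⟨n, hn, h⟩
    refine ⟨n, ?_, h⟩
    rw [hr]
    exact hn
  rcases hG with ⟨hV, hG⟩ | ⟨k, c, G₁, hG₁, hc, hG⟩
  · refine Pool.Agent.W2helper32.GQ.main_fin hC hF (N.subtype.comp e.toMonoidHom) hj
      (hN := hn) ?_ hA hQ'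
    intro g v
    obtain ⟨w, hw⟩ := hG g v
    exact ⟨w, hM g v w hw⟩
  · refine Pool.Agent.W2helper32.GQ.main_col hC hF k (fun v => (c v : ℕ)) (fun v => (c v).2) ?_
      (N.subtype.comp e.toMonoidHom) hj (hN := hn) G₁ hG₁ ?_ hA hQ'
    · intro v w h hvw
      exact hc v w h (Fin.ext hvw)
    · intro g hg v
      obtain ⟨w, hcw, hw⟩ := hG g hg v
      exact ⟨w, congrArg Fin.val hcw, hM g v w hw⟩

end Pool.Agent.Results.MP_2a547c_gt.GraphProductKernels
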