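import Pool.Agent.W2helper34.GS.Graded

/-!
# Semilinear groups of rank two over noncommutative graded rings and the Farrell–Jones conjecture

`C` is a class of groups with the closure properties `ClosedE C` which contains the solvable groups. By
published theorems the class of the groups which satisfy the Farrell–Jones conjecture for `A`-theory with
coefficients and finite wreath products is such a class (Enkelmann, Lück, Pieper, Ullmann and Winges; for
solvable groups Kasprowski, Ullmann, Wegner and Winges).

Let `A` be a group of ring automorphisms of a ring `R`. The semilinear group `ΓL_2(R, A) = GL_2(R) ⋊ A`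
consists of the maps `v ↦ g (a v)` of `R ^ 2`, `g ∈ GL_2(R)`, `a ∈ A`; here `a` acts entry by entry.

Theorem. Let `R = R_0 ⊕ R_1 ⊕ R_2 ⊕ …` be a graded ring, not necessarily commutative, and let `A` be an
arbitrary group of automorphisms of the graded ring `R`. Suppose that `R` embeds in a division ring such
that the automorphisms in `A` extend. Then `GL_2(R) ⋊ A` is in `C` if and only if `GL_2(R_0) ⋊ A` is.

There is no condition on `A`, and no finiteness condition. If `R` is a left Ore domain, the division ring
of fractions may be taken. Examples.

* `R = ℤ[x_i, i ∈ I]` and a group `A` which permutes the variables: `GL_2(R) ⋊ A` is in `C` if and only if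
  `A` is in `C` (`GL_2(ℤ)` is virtually free).
* `GL_2(ℤ[x_1, …, x_m]) ⋊ GL_m(ℤ)`, and `GL_2(K[x_1, …, x_m]) ⋊ GL_m(K)` if `K` is a field with all
  `GL_n(K)` in `C`. The latter group is the group of the polynomial automorphisms
  `(x, y) ↦ (B x, g(x) y)` of the affine space of dimension `m + 2`, which are linear in the second
  argument and linear on the base.
* Free rings `R = ℤ⟨X⟩` with `A = GL(X)`, or with any group of graded automorphisms (automorphisms of
  free rings extend to the universal division ring of fractions by a theorem of Cohn).
* `A` may act nontrivially on `R_0`, for example `R = K[x_1, …, x_m]` and `A` a group of automorphisms of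
  the field `K`.

The groups are not groups of `2 × 2` matrices over a division ring, and an embedding in the linear group
of a crossed product `R * A` helps only if `A` is very special (`R * A` would have to be an Ore domain).

Outline of the proof. Let `E` be the division ring. Sending `r = ∑ r_i` to `∑ r_i X ^ i` embeds `R` in the
polynomial ring `T = E[X]`, on which `A` acts. The action of `A` extends to the division ring `E(X)` of
fractions and preserves the degree valuation. So the semilinear group acts on the Bruhat–Tits tree of
`GL_2(E(X))`. A vertex stabilizer in `GL_2(R) ⋊ A` need not be contained in `GL_2(R)`, but for the elements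
`(g, a)` of the stabilizer the degree of `g` is bounded, because the twisted conjugate `x⁻¹ g a(x)` is
bounded up to a shift and `a` preserves degrees. Hence the reduction of `GL_2(R) ⋊ A` modulo the terms of
large degree is injective on the stabilizer. Its image is an extension of a subgroup of `GL_2(R_0) ⋊ A` by a
nilpotent group, which is in `C` by the closure properties. The criterion `Pool.Agent.N24.TR.tree_local`
of the starting files for groups acting on trees completes the proof.
-/

set_option autoImplicit false

namespace Pool.Agent.Results.MP_2a547c_gt.SemilinearGroups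

open Pool.Agent.Y110.FJ (ClosedE)

/-- The action of a group `A` of ring automorphisms on the invertible `2 × 2` matrices, entry by entry:
`(a g)_{i j} = a g_{i j}`. -/
noncomputable abbrev entrywise (A R : Type) [Group A] [Ring R] [MulSemiringAction A R] :
    A →* MulAut (Matrix (Fin 2) (Fin 2) R)ˣ :=
  Pool.Agent.W2helper34.GS.semi A R

/-- The semilinear group `ΓL_2(R, A) = GL_2(R) ⋊ A`. -/
abbrev Semilinear (A R : Type) [Group A] [Ring R] [MulSemiringAction A R] : Type :=
  (Matrix (Fin 2) (Fin 2) R)ˣ ⋊[entrywise A R] A

/-- The subgroup `GL_2(R_0) ⋊ A` of the pairs `(g, a)` such that the entries of `g` and of its inverse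
have degree zero. -/
abbrev DegreeZero {R σ A : Type} [Ring R] [SetLike σ R] [AddSubgroupClass σ R] (𝒜 : ℕ → σ)
    [GradedRing 𝒜] [Group A] [MulSemiringAction A R]
    (hgr : ∀ (a : A) (i : ℕ) (x : R), x ∈ 𝒜 i → a • x ∈ 𝒜 i) : Subgroup (Semilinear A R) :=
  Pool.Agent.W2helper34.GS.degZero 𝒜 hgr

/-- **Semilinear groups of rank two over noncommutative graded rings.** -/
theorem result (C : ∀ (G : Type) [Group G], Prop) (hC : ClosedE C)
    (hS : ∀ (G : Type) [Group G], Group.IsSolvable G → C G)
    {R σ A : Type} [Ring R] [SetLike σ R] [AddSubgroupClass σ R] (𝒜 : ℕ → σ) [GradedRing 𝒜]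
    [Group A] [MulSemiringAction A R]
    (hgr : ∀ (a : A) (i : ℕ) (x : R), x ∈ 𝒜 i → a • x ∈ 𝒜 i)
    {E : Type} [DivisionRing E] [MulSemiringAction A E] (ι : R →+* E)
    (hι : Function.Injective ι) (hιA : ∀ (a : A) (x : R), ι (a • x) = a • ι x) :
    C (Semilinear A R) ↔ C (DegreeZero 𝒜 hgr) :=
  ⟨fun h => hC.base.of_injective _ _ (DegreeZero 𝒜 hgr).subtype (Subgroup.subtype_injective _) h,
    fun h => Pool.Agent.W2helper34.GS.graded_main 𝒜 hgr ι hιA hC hS hι h⟩

end Pool.Agent.Results.MP_2a547c_gt.SemilinearGroups
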